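import Pool.Agent.W831.HI.Loops
import Pool.Agent.TH399.CC.Block

set_option autoImplicit false
set_option linter.unusedSectionVars false

/-!
Even sets: symmetric differences, joins outside an even set, flipping a family of even sets.
-/

namespace Pool.Agent.Q108.EW

open Finset
open Pool.Agent.H126R2.CDC (MGraph)
open Pool.Agent.H126R2.NC (InIntCone)

variable {V E : Type} [Fintype V] [DecidableEq V] [Fintype E] [DecidableEq E]

theorem z2 (x : ZMod 2) : x + x = 0 := by
  revert x; decide

theorem deg_symmDiff (G : MGraph V E) (A B : Finset E) (v : V) :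
    ((G.deg (symmDiff A B) v : ℕ) : ZMod 2) = (G.deg A v : ZMod 2) + (G.deg B v : ZMod 2) := by
  rw [MGraph.deg_eq_sum, MGraph.deg_eq_sum, MGraph.deg_eq_sum]
  push_cast
  have h1 : ∀ S : Finset E, ∑ e ∈ S, ((G.ep e v : ℕ) : ZMod 2) =
      ∑ e : E, if e ∈ S then ((G.ep e v : ℕ) : ZMod 2) else 0 := by
    intro S
    rw [← sum_filter]
    congr 1
    ext e; simp
  rw [h1, h1 A, h1 B, ← sum_add_distrib]
  refine sum_congr rfl fun e _ => ?_
  by_cases ha : e ∈ A <;> by_cases hb : e ∈ B <;> simp [mem_symmDiff, ha, hb, z2]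

theorem even_iff (G : MGraph V E) (A : Finset E) :
    G.IsEven A ↔ ∀ v, ((G.deg A v : ℕ) : ZMod 2) = 0 := by
  refine forall_congr' fun v => ?_
  exact (ZMod.natCast_eq_zero_iff_even).symm

theorem even_symmDiff (G : MGraph V E) {A B : Finset E} (hA : G.IsEven A) (hB : G.IsEven B) :
    G.IsEven (symmDiff A B) := by
  rw [even_iff] at *
  intro v
  rw [deg_symmDiff, hA v, hB v, add_zero]

theorem even_empty (G : MGraph V E) : G.IsEven ∅ := by
  intro v
  rw [MGraph.deg_eq_sum]
  simp

/-- a path outside `O` -/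
def Off (G : MGraph V E) (O : Finset E) (a b : V) : Prop := ∃ e, e ∉ O ∧ G.ends e = s(a, b)

theorem join (G : MGraph V E) (O : Finset E) (u v : V)
    (h : Relation.ReflTransGen (Off G O) u v) :
    ∃ P : Finset E, (∀ e ∈ P, e ∉ O) ∧
      ∀ w, ((G.deg P w : ℕ) : ZMod 2) = (if u = w then 1 else 0) + (if v = w then 1 else 0) := by
  induction h with
  | refl =>
    refine ⟨∅, by simp, fun w => ?_⟩
    rw [z2, MGraph.deg_eq_sum]
    simp
  | @tail b c h1 h2 ih =>
    obtain ⟨P, hP, hd⟩ := ih
    obtain ⟨e, heO, he⟩ := h2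
    refine ⟨symmDiff P {e}, ?_, fun w => ?_⟩
    · intro f hf
      rw [mem_symmDiff] at hf
      rcases hf with h | h
      · exact hP f h.1
      · rw [mem_singleton.1 h.1]; exact heO
    · rw [deg_symmDiff, hd w, MGraph.deg_eq_sum G {e}, sum_singleton, MGraph.ep_eq G he]
      push_cast
      have h3 : ∀ x y z : ZMod 2, x + y + (y + z) = x + z := by decide
      rw [h3]

/-- the even sets cut out every subset of `O` -/
theorem traces (G : MGraph V E) (O : Finset E)
    (h : ∀ u v, Relation.ReflTransGen (Off G O) u v) (K : Finset E) (hK : K ⊆ O) :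
    ∃ D : Finset E, G.IsEven D ∧ ∀ e ∈ O, (e ∈ D ↔ e ∈ K) := by
  induction K using Finset.induction_on with
  | empty => exact ⟨∅, even_empty G, by simp⟩
  | insert f K hf ih =>
    obtain ⟨D, hD, hDK⟩ := ih (fun e he => hK (mem_insert_of_mem he))
    have hfO : f ∈ O := hK (mem_insert_self f K)
    obtain ⟨u, v, huv⟩ : ∃ u v, G.ends f = s(u, v) := by
      induction h : G.ends f using Sym2.ind with
      | _ x y => exact ⟨x, y, rfl⟩
    obtain ⟨P, hP, hd⟩ := join G O u v (h u v)
    have hev : G.IsEven (symmDiff P {f}) := by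
      rw [even_iff]
      intro w
      rw [deg_symmDiff, hd w, MGraph.deg_eq_sum G {f}, sum_singleton, MGraph.ep_eq G huv]
      push_cast
      exact z2 _
    refine ⟨symmDiff D (symmDiff P {f}), even_symmDiff G hD hev, fun e he => ?_⟩
    have heP : e ∉ P := fun h => hP e h he
    rw [mem_symmDiff, mem_symmDiff, mem_insert, mem_singleton]
    by_cases hef : e = f
    · subst hef
      have h1 : e ∉ D := fun h => hf ((hDK e he).1 h)
      tauto
    · have := hDK e he
      tauto

theorem fam (G : MGraph V E) {k : ℕ} (X : Fin k → Finset E) (hX : ∀ i, G.IsEven (X i)) :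
    InIntCone G (fun e => (univ.filter fun i => e ∈ X i).card) := by
  choose F hF1 hF2 using fun i => G.decompose _ (X i) rfl (hX i)
  refine ⟨∑ i, F i, ?_, ?_⟩
  · intro C hC
    rw [Multiset.mem_sum] at hC
    obtain ⟨i, _, hi⟩ := hC
    exact hF1 i C hi
  · intro e
    show _ = (univ.filter fun i => e ∈ X i).card
    rw [Pool.Agent.W831.HI.countP_sum, card_filter]
    exact sum_congr rfl fun i _ => hF2 i e

theorem congr_cone {G : MGraph V E} {p q : E → ℕ} (hp : InIntCone G p) (h : ∀ e, q e = p e) :
    InIntCone G q := by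
  have : q = p := funext h
  rw [this]; exact hp

theorem add_cone {G : MGraph V E} {p q : E → ℕ} (hp : InIntCone G p) (hq : InIntCone G q) :
    InIntCone G (fun e => p e + q e) := by
  obtain ⟨S, hS1, hS2⟩ := hp
  obtain ⟨T, hT1, hT2⟩ := hq
  refine ⟨S + T, ?_, ?_⟩
  · intro C hC
    rcases Multiset.mem_add.1 hC with h1 | h1
    · exact hS1 C h1
    · exact hT1 C h1
  · intro e
    rw [Multiset.countP_add, hS2, hT2]

theorem zero_cone (G : MGraph V E) : InIntCone G (fun _ => 0) :=
  ⟨0, by simp, fun e => by simp⟩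

theorem sum_cone {G : MGraph V E} (n : ℕ) (p : ℕ → E → ℕ) (hp : ∀ i, i < n → InIntCone G (p i)) :
    InIntCone G (fun e => ∑ i ∈ range n, p i e) := by
  induction n with
  | zero => exact congr_cone (zero_cone G) (fun e => by simp)
  | succ n ih =>
    refine congr_cone (add_cone (ih fun i hi => hp i (by omega)) (hp n (by omega))) fun e => ?_
    exact sum_range_succ _ _

theorem nsmul_cone {G : MGraph V E} {p : E → ℕ} (hp : InIntCone G p) (n : ℕ) :
    InIntCone G (fun e => n * p e) := by
  refine congr_cone (sum_cone n (fun _ => p) (fun _ _ => hp)) fun e => ?_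
  simp

/-- flipping a family of `k` even sets along an even set `D` -/
theorem flip (G : MGraph V E) {k : ℕ} (X : Fin k → Finset E) (hX : ∀ i, G.IsEven (X i))
    (D : Finset E) (hD : G.IsEven D) :
    InIntCone G (fun e => if e ∈ D then k - (univ.filter fun i => e ∈ X i).card
      else (univ.filter fun i => e ∈ X i).card) := by
  refine congr_cone (fam G (fun i => symmDiff (X i) D) fun i => even_symmDiff G (hX i) hD)
    fun e => ?_
  by_cases he : e ∈ D
  · rw [if_pos he]
    have h1 : (univ.filter fun i => e ∈ symmDiff (X i) D) = univ \ (univ.filter fun i => e ∈ X i) := by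
      ext i
      simp only [mem_filter, mem_univ, true_and, mem_symmDiff, mem_sdiff]
      tauto
    rw [h1, card_sdiff_of_subset (subset_univ _), card_univ, Fintype.card_fin]
  · rw [if_neg he]
    congr 1
    ext i
    simp only [mem_filter, mem_univ, true_and, mem_symmDiff]
    tauto

end Pool.Agent.Q108.EW
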