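import Pool.Agent.Q108.EW.Main

set_option autoImplicit false

/-!
Circuit covers of weightings that are constant off an even set: the definitions used by the
results.
-/

namespace Pool.Agent.Q108.EW.Split

open Finset
open Pool.Agent.H126R2.CDC (MGraph)

/-- `(G, p)` has a circuit cover: a finite family (multiset) of circuits such that every edge `e`
lies in exactly `p e` members, counted with multiplicity. -/
def HasCover {V E : Type} [Fintype V] [DecidableEq V] [Fintype E] [DecidableEq E]
    (G : MGraph V E) (p : E → ℕ) : Prop :=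
  ∃ F : Multiset (Finset E), (∀ C ∈ F, G.IsCircuit C) ∧ ∀ e, F.countP (fun C => e ∈ C) = p e

/-- `G - O` is connected: any two vertices of `G` are joined by a walk without edges of `O`. -/
def ConnectedOff {V E : Type} [Fintype V] [DecidableEq V] [Fintype E] [DecidableEq E]
    (G : MGraph V E) (O : Finset E) : Prop :=
  ∀ u v : V, Relation.ReflTransGen (fun a b => ∃ e, e ∉ O ∧ G.ends e = s(a, b)) u v

/-- Every level set `{e ∈ O : p e ≥ j}` is the intersection of `O` with an even set. -/
def LevelsCutOut {V E : Type} [Fintype V] [DecidableEq V] [Fintype E] [DecidableEq E]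
    (G : MGraph V E) (O : Finset E) (p : E → ℕ) : Prop :=
  ∀ j : ℕ, ∃ D : Finset E, G.IsEven D ∧ ∀ e ∈ O, (e ∈ D ↔ j ≤ p e)

theorem levels {V E : Type} [Fintype V] [DecidableEq V] [Fintype E] [DecidableEq E]
    (G : MGraph V E) (O : Finset E) (q : E → ℕ) (h : ConnectedOff G O ∨ LevelsCutOut G O q) :
    LevelsCutOut G O q := by
  rcases h with h | h
  · intro j
    obtain ⟨D, hD, hK⟩ := Pool.Agent.Q108.EW.traces G O h (O.filter fun e => j ≤ q e)
      (filter_subset _ _)
    refine ⟨D, hD, fun e he => ?_⟩
    rw [hK e he, mem_filter]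
    exact ⟨fun h => h.2, fun h => ⟨he, h⟩⟩
  · exact h

end Pool.Agent.Q108.EW.Split
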