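import Pool.Agent.Q108.EW.Basic

set_option autoImplicit false
set_option linter.unusedSectionVars false

/-!
The three families: weights `4` off an even set and `3`, `5` on it; weights `4` off a circuit and
`2`, `6` on it; weights `2` off an even set and `1`, `3` on it.
-/

namespace Pool.Agent.Q108.EW

open Finset
open Pool.Agent.H126R2.CDC (MGraph)
open Pool.Agent.H126R2.NC (InIntCone)

variable {V E : Type} [Fintype V] [DecidableEq V] [Fintype E] [DecidableEq E]

theorem two_cone (G : MGraph V E) (hG : G.Bridgeless) : InIntCone G (fun _ => 2) := by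
  obtain ⟨F, hF⟩ := G.exists_cdc hG
  exact ⟨F, hF.1, hF.2⟩

theorem even_cone (G : MGraph V E) {O : Finset E} (hO : G.IsEven O) :
    InIntCone G (fun e => if e ∈ O then 1 else 0) := by
  obtain ⟨F, h1, h2⟩ := G.decompose _ O rfl hO
  exact ⟨F, h1, h2⟩

/-- three even sets that cover all edges -/
theorem flow8 (G : MGraph V E) (hG : G.Bridgeless) :
    ∃ A B C : Finset E, G.IsEven A ∧ G.IsEven B ∧ G.IsEven C ∧ ∀ e, e ∈ A ∨ e ∈ B ∨ e ∈ C := by
  classical
  obtain ⟨v, hv⟩ := G.exists_halves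
  obtain ⟨A, hA, -, hn⟩ := Pool.Agent.TH399.CC.exists_flow8_minus (fun e => v (e, false))
    (fun e => v (e, true)) ∅ (by
      intro B
      rw [sdiff_empty]
      exact G.no_one_cut hG v hv B)
  have h1 : ∀ i, G.IsEven (univ.filter fun e => A i e = 1) := fun i =>
    Pool.Agent.TH399.CC.isEven_of_isFlow G v hv (A i) (hA i)
  refine ⟨_, _, _, h1 0, h1 1, h1 2, fun e => ?_⟩
  have h2 := hn e (by simp)
  simp only [mem_filter, mem_univ, true_and]
  rcases h2 with h | h | h
  · left; exact (Pool.Agent.Helper879.ECD.f2_cases _).resolve_left h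
  · right; left; exact (Pool.Agent.Helper879.ECD.f2_cases _).resolve_left h
  · right; right; exact (Pool.Agent.Helper879.ECD.f2_cases _).resolve_left h

theorem cnt8 (a b c o : Prop) [Decidable a] [Decidable b] [Decidable c] [Decidable o]
    (h : a ∨ b ∨ c) :
    ((if o then 1 else 0) + (if a then 1 else 0) + (if b then 1 else 0) + (if c then 1 else 0) +
      (if (a ∧ ¬ b ∨ b ∧ ¬ a) then 1 else 0) + (if (a ∧ ¬ c ∨ c ∧ ¬ a) then 1 else 0) +
      (if (b ∧ ¬ c ∨ c ∧ ¬ b) then 1 else 0) +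
      (if ((a ∧ ¬ b ∨ b ∧ ¬ a) ∧ ¬ c ∨ c ∧ ¬ (a ∧ ¬ b ∨ b ∧ ¬ a)) then 1 else 0) : ℕ) =
      if o then 5 else 4 := by
  by_cases ha : a <;> by_cases hb : b <;> by_cases hc : c <;> by_cases ho : o <;>
    simp [ha, hb, hc, ho] at h ⊢

theorem base35 (G : MGraph V E) (hG : G.Bridgeless) (O : Finset E) (hO : G.IsEven O) :
    ∃ X : Fin 8 → Finset E, (∀ i, G.IsEven (X i)) ∧
      ∀ e, (univ.filter fun i => e ∈ X i).card = if e ∈ O then 5 else 4 := by
  obtain ⟨A, B, C, hA, hB, hC, h⟩ := flow8 G hG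
  refine ⟨![O, A, B, C, symmDiff A B, symmDiff A C, symmDiff B C, symmDiff (symmDiff A B) C],
    ?_, fun e => ?_⟩
  · intro i
    fin_cases i
    · exact hO
    · exact hA
    · exact hB
    · exact hC
    · exact even_symmDiff G hA hB
    · exact even_symmDiff G hA hC
    · exact even_symmDiff G hB hC
    · exact even_symmDiff G (even_symmDiff G hA hB) hC
  · rw [card_filter, Fin.sum_univ_eight]
    have := cnt8 (e ∈ A) (e ∈ B) (e ∈ C) (e ∈ O) (h e)
    simp only [Matrix.cons_val, mem_symmDiff]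
    exact this

/-- weight `4` off the even set `O`, weights `3` and `5` on it -/
theorem cone35 (G : MGraph V E) (hG : G.Bridgeless) (O : Finset E) (hO : G.IsEven O)
    (D : Finset E) (hD : G.IsEven D) :
    InIntCone G (fun e => if e ∈ O then (if e ∈ D then 5 else 3) else 4) := by
  obtain ⟨X, hX, hc⟩ := base35 G hG O hO
  refine congr_cone (flip G X hX (symmDiff D O) (even_symmDiff G hD hO)) fun e => ?_
  rw [hc e]
  by_cases h1 : e ∈ O <;> by_cases h2 : e ∈ D <;> simp [mem_symmDiff, h1, h2]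

/-- weight `4` off the circuit `C`, weights `2` and `6` on it -/
theorem cone26 (G : MGraph V E) (hG : G.Bridgeless) (C : Finset E) (hC : G.IsCircuit C)
    (hnl : ∀ e ∈ C, ¬ (G.ends e).IsDiag) (D : Finset E) (hD : G.IsEven D) :
    InIntCone G (fun e => if e ∈ C then (if e ∈ D then 6 else 2) else 4) := by
  obtain ⟨X, hX, hc⟩ := Pool.Agent.W831.HI.eight_loops G (fun e => by
      obtain ⟨D, hD, he⟩ := hG e
      exact ⟨D, hD.isEven, he⟩) C hC hnl
  refine congr_cone (flip G X hX D hD) fun e => ?_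
  rw [hc e]
  by_cases h1 : e ∈ C <;> by_cases h2 : e ∈ D <;> simp [h1, h2]

theorem cnt4 (a b o : Prop) [Decidable a] [Decidable b] [Decidable o]
    (h : ¬ o → a ∨ b) :
    ((if o then 1 else 0) + (if a then 1 else 0) + (if b then 1 else 0) +
      (if (a ∧ ¬ b ∨ b ∧ ¬ a) then 1 else 0) : ℕ) =
      if o then (if a ∨ b then 3 else 1) else 2 := by
  by_cases ha : a <;> by_cases hb : b <;> by_cases ho : o <;>
    simp [ha, hb, ho] at h ⊢

/-- weight `2` off the even set `O`, weights `1` and `3` on it -/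
theorem cone13 (G : MGraph V E) (O : Finset E) (hO : G.IsEven O)
    (A B : Finset E) (hA : G.IsEven A) (hB : G.IsEven B) (hAB : ∀ e, e ∉ O → e ∈ A ∨ e ∈ B)
    (hfree : ∀ K ⊆ O, ∃ D : Finset E, G.IsEven D ∧ ∀ e ∈ O, (e ∈ D ↔ e ∈ K))
    (K : Finset E) :
    InIntCone G (fun e => if e ∈ O then (if e ∈ K then 3 else 1) else 2) := by
  obtain ⟨D, hD, hDK⟩ := hfree (O.filter fun e => ¬ (e ∈ K ↔ (e ∈ A ∨ e ∈ B))) (filter_subset _ _)
  refine congr_cone (flip G ![O, A, B, symmDiff A B] ?_ D hD) fun e => ?_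
  · intro i
    fin_cases i
    · exact hO
    · exact hA
    · exact hB
    · exact even_symmDiff G hA hB
  · have h1 : (univ.filter fun i => e ∈ (![O, A, B, symmDiff A B] : Fin 4 → Finset E) i).card =
        if e ∈ O then (if e ∈ A ∨ e ∈ B then 3 else 1) else 2 := by
      rw [card_filter, Fin.sum_univ_four]
      simp only [Matrix.cons_val, mem_symmDiff]
      exact cnt4 (e ∈ A) (e ∈ B) (e ∈ O) (hAB e)
    rw [h1]
    by_cases hO' : e ∈ O
    · have h2 := hDK e hO'
      rw [mem_filter] at h2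
      by_cases hk : e ∈ K <;> by_cases hab : e ∈ A ∨ e ∈ B <;> by_cases hd : e ∈ D <;>
        simp only [hO', hk, hab, hd, if_true, if_false] <;> tauto
    · by_cases hd : e ∈ D <;> simp [hO', hd]

end Pool.Agent.Q108.EW
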