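import Pool.Agent.Q108.EW.Fam

set_option autoImplicit false
set_option linter.unusedSectionVars false

/-!
Circuit covers of weightings that are constant off an even set.
-/

namespace Pool.Agent.Q108.EW

open Finset
open Pool.Agent.H126R2.CDC (MGraph)
open Pool.Agent.H126R2.NC (InIntCone)

variable {V E : Type} [Fintype V] [DecidableEq V] [Fintype E] [DecidableEq E]

theorem sum_lt (x y : ℕ) : ∀ m d : ℕ, d ≤ m →
    ∑ i ∈ range m, (if i < d then x + y else y) = m * y + d * x := by
  intro m
  induction m with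
  | zero => intro d hd; interval_cases d; simp
  | succ m ih =>
    intro d hd
    rw [sum_range_succ]
    rcases Nat.lt_or_ge m d with h | h
    · have h1 : d = m + 1 := by omega
      subst h1
      have h2 : ∑ i ∈ range m, (if i < m + 1 then x + y else y) =
          ∑ i ∈ range m, (if i < m then x + y else y) := by
        refine sum_congr rfl fun i hi => ?_
        have := mem_range.1 hi
        rw [if_pos (by omega), if_pos this]
      rw [h2, ih m le_rfl, if_pos (by omega)]
      ring
    · rw [ih d h, if_neg (by omega)]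
      ring

/-- the level sets of `p` on `O` are cut out by even sets -/
def Levels (G : MGraph V E) (O : Finset E) (p : E → ℕ) : Prop :=
  ∀ j : ℕ, ∃ D : Finset E, G.IsEven D ∧ ∀ e ∈ O, (e ∈ D ↔ j ≤ p e)

theorem odd_trace (G : MGraph V E) (O : Finset E) (p : E → ℕ) (h : Levels G O p) (a : ℕ) :
    ∀ N : ℕ, ∃ D : Finset E, G.IsEven D ∧
      ∀ e ∈ O, (e ∈ D ↔ min N ((p e - a) / 2) % 2 = 1) := by
  intro N
  induction N with
  | zero => exact ⟨∅, even_empty G, fun e _ => by simp⟩
  | succ N ih =>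
    obtain ⟨D, hD, hDO⟩ := ih
    obtain ⟨L, hL, hLO⟩ := h (a + 2 * (N + 1))
    refine ⟨symmDiff D L, even_symmDiff G hD hL, fun e he => ?_⟩
    rw [mem_symmDiff, hDO e he, hLO e he]
    by_cases h1 : a + 2 * (N + 1) ≤ p e
    · have h2 : min (N + 1) ((p e - a) / 2) = N + 1 := by
        apply min_eq_left; omega
      have h3 : min N ((p e - a) / 2) = N := by
        apply min_eq_left; omega
      rw [h2, h3]; omega
    · have h2 : min (N + 1) ((p e - a) / 2) = min N ((p e - a) / 2) := by
        have : (p e - a) / 2 ≤ N := by omega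
        rw [min_eq_right this, min_eq_right (by omega)]
      rw [h2]; tauto

/-- a family of covers along the levels -/
theorem level_sum (G : MGraph V E) (O : Finset E) (p : E → ℕ) (h : Levels G O p) (x y z s a : ℕ)
    (hs : 0 < s)
    (hc : ∀ D : Finset E, G.IsEven D →
      InIntCone G (fun e => if e ∈ O then (if e ∈ D then x + y else y) else z)) (m : ℕ) :
    InIntCone G (fun e => if e ∈ O then m * y + min m ((p e - a) / s) * x else m * z) := by
  choose D hD hDO using h
  refine congr_cone (sum_cone m (fun i e => if e ∈ O then (if e ∈ D (a + s * (i + 1)) then x + y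
    else y) else z) (fun i _ => hc _ (hD _))) fun e => ?_
  by_cases he : e ∈ O
  · simp only [he, if_true]
    rw [← sum_lt x y m _ (min_le_left _ _)]
    refine sum_congr rfl fun i hi => ?_
    have hi' := mem_range.1 hi
    have h1 : e ∈ D (a + s * (i + 1)) ↔ i < min m ((p e - a) / s) := by
      rw [hDO _ e he, lt_min_iff]
      constructor
      · intro h2
        refine ⟨hi', ?_⟩
        rw [Nat.lt_iff_add_one_le, Nat.le_div_iff_mul_le hs, mul_comm]
        omega
      · rintro ⟨_, h2⟩
        rw [Nat.lt_iff_add_one_le, Nat.le_div_iff_mul_le hs, mul_comm] at h2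
        have h3 : 0 < s * (i + 1) := Nat.mul_pos hs (Nat.succ_pos i)
        omega
    by_cases h2 : e ∈ D (a + s * (i + 1))
    · rw [if_pos h2, if_pos (h1.1 h2)]
    · rw [if_neg h2, if_neg (fun h3 => h2 (h1.2 h3))]
  · simp [he]

theorem part1 (G : MGraph V E) (hG : G.Bridgeless) (O : Finset E) (hO : G.IsEven O)
    (c : ℕ) (hc : Even c) (p : E → ℕ) (hoff : ∀ e, e ∉ O → p e = c)
    (hpar : ∀ e ∈ O, ∀ f ∈ O, p e % 2 = p f % 2) (hlev : Levels G O p)
    (h1 : ∀ e ∈ O, c ≤ p e + c / 4) (h2 : ∀ e ∈ O, ∀ f ∈ O, p e ≤ p f + 2 * (c / 4)) :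
    InIntCone G p := by
  obtain ⟨k, hk⟩ := hc
  have base : ∀ a b : ℕ, (∀ e ∈ O, p e = (c - c / 4) + b + 2 * min (c / 4) ((p e - a) / 2)) →
      InIntCone G p := by
    intro a b hab
    have e1 := level_sum G O p hlev 2 3 4 2 a (by norm_num) (fun D hD => cone35 G hG O hO D hD) (c / 4)
    have e2 := nsmul_cone (two_cone G hG) (k - 2 * (c / 4))
    have e3 := nsmul_cone (even_cone G hO) b
    refine congr_cone (add_cone (add_cone e1 e2) e3) fun e => ?_
    by_cases he : e ∈ O
    · simp only [he, if_true]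
      have := hab e he
      omega
    · simp only [he, if_false]
      rw [hoff e he]
      omega
  rcases O.eq_empty_or_nonempty with h | h
  · exact base 0 0 (by simp [h])
  · obtain ⟨e0, he0, hmin⟩ := exists_min_image O p h
    refine base (p e0) (p e0 - (c - c / 4)) fun e he => ?_
    have h3 := hmin e he
    have h4 := h2 e he e0 he0
    have h5 := hpar e he e0 he0
    have h6 := h1 e0 he0
    rw [min_eq_right (by omega)]
    omega

theorem part2a (G : MGraph V E) (hG : G.Bridgeless) (O : Finset E) (hO : G.IsCircuit O)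
    (hnl : ∀ e ∈ O, ¬ (G.ends e).IsDiag)
    (c : ℕ) (hc : Even c) (p : E → ℕ) (hoff : ∀ e, e ∉ O → p e = c)
    (hpar : ∀ e ∈ O, ∀ f ∈ O, p e % 4 = p f % 4) (hlev : Levels G O p)
    (h1 : ∀ e ∈ O, c ≤ p e + 2 * (c / 4)) (h2 : ∀ e ∈ O, ∀ f ∈ O, p e ≤ p f + 4 * (c / 4)) :
    InIntCone G p := by
  obtain ⟨k, hk⟩ := hc
  have base : ∀ a b : ℕ, (∀ e ∈ O, p e = (c - 2 * (c / 4)) + b + 4 * min (c / 4) ((p e - a) / 4)) →
      InIntCone G p := by
    intro a b hab
    have e1 := level_sum G O p hlev 4 2 4 4 a (by norm_num)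
      (fun D hD => cone26 G hG O hO hnl D hD) (c / 4)
    have e2 := nsmul_cone (two_cone G hG) (k - 2 * (c / 4))
    have e3 := nsmul_cone (even_cone G hO.isEven) b
    refine congr_cone (add_cone (add_cone e1 e2) e3) fun e => ?_
    by_cases he : e ∈ O
    · simp only [he, if_true]
      have := hab e he
      omega
    · simp only [he, if_false]
      rw [hoff e he]
      omega
  obtain ⟨e0, he0, hmin⟩ := exists_min_image O p hO.1
  refine base (p e0) (p e0 - (c - 2 * (c / 4))) fun e he => ?_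
  have h3 := hmin e he
  have h4 := h2 e he e0 he0
  have h5 := hpar e he e0 he0
  have h6 := h1 e0 he0
  rw [min_eq_right (by omega)]
  omega

theorem part2b (G : MGraph V E) (hG : G.Bridgeless) (O : Finset E) (hO : G.IsCircuit O)
    (hnl : ∀ e ∈ O, ¬ (G.ends e).IsDiag)
    (c : ℕ) (hc : Even c) (hc4 : 4 ≤ c) (p : E → ℕ) (hoff : ∀ e, e ∉ O → p e = c)
    (hpar : ∀ e ∈ O, ∀ f ∈ O, p e % 2 = p f % 2) (hlev : Levels G O p)
    (h1 : ∀ e ∈ O, c + 1 ≤ p e + 2 * (c / 4))
    (h2 : ∀ e ∈ O, ∀ f ∈ O, p e + 2 ≤ p f + 4 * (c / 4)) :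
    InIntCone G p := by
  obtain ⟨k, hk⟩ := hc
  obtain ⟨e0, he0, hmin⟩ := exists_min_image O p hO.1
  obtain ⟨D, hD, hDO⟩ := odd_trace G O p hlev (p e0) (2 * (c / 4))
  have e1 := level_sum G O p hlev 4 2 4 4 (p e0) (by norm_num)
    (fun D hD => cone26 G hG O hO hnl D hD) (c / 4 - 1)
  have e2 := nsmul_cone (two_cone G hG) (k - 2 * (c / 4))
  have e3 := nsmul_cone (even_cone G hO.isEven) (p e0 - (c - 2 * (c / 4) + 1))
  have e4 := cone35 G hG O hO.isEven D hD
  refine congr_cone (add_cone (add_cone (add_cone e1 e4) e2) e3) fun e => ?_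
  by_cases he : e ∈ O
  · simp only [he, if_true]
    have h3 := hmin e he
    have h4 := h2 e he e0 he0
    have h5 := hpar e he e0 he0
    have h6 := h1 e0 he0
    have h7 := hDO e he
    rw [min_eq_right (by omega)] at h7
    rw [min_eq_right (by omega)]
    by_cases h8 : e ∈ D
    · have h9 := h7.1 h8
      rw [if_pos h8]
      omega
    · have h9 : ¬ ((p e - p e0) / 2 % 2 = 1) := fun h => h8 (h7.2 h)
      rw [if_neg h8]
      omega
  · simp only [he, if_false]
    rw [hoff e he]
    omega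

theorem part3 (G : MGraph V E) (O : Finset E) (hO : G.IsEven O)
    (A B : Finset E) (hA : G.IsEven A) (hB : G.IsEven B) (hAB : ∀ e, e ∉ O → e ∈ A ∨ e ∈ B)
    (hfree : ∀ K ⊆ O, ∃ D : Finset E, G.IsEven D ∧ ∀ e ∈ O, (e ∈ D ↔ e ∈ K))
    (c : ℕ) (hc : Even c) (p : E → ℕ) (hoff : ∀ e, e ∉ O → p e = c)
    (hpar : ∀ e ∈ O, ∀ f ∈ O, p e % 2 = p f % 2)
    (h1 : ∀ e ∈ O, c ≤ 2 * p e) (h2 : ∀ e ∈ O, ∀ f ∈ O, p e ≤ p f + c) :
    InIntCone G p := by
  obtain ⟨k, hk⟩ := hc
  have hlev : Levels G O p := by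
    intro j
    obtain ⟨D, hD, h⟩ := hfree (O.filter fun e => j ≤ p e) (filter_subset _ _)
    refine ⟨D, hD, fun e he => ?_⟩
    rw [h e he, mem_filter]
    tauto
  have base : ∀ a b : ℕ, (∀ e ∈ O, p e = k + b + 2 * min k ((p e - a) / 2)) →
      InIntCone G p := by
    intro a b hab
    have e1 := level_sum G O p hlev 2 1 2 2 a (by norm_num)
      (fun D _ => cone13 G O hO A B hA hB hAB hfree D) k
    have e3 := nsmul_cone (even_cone G hO) b
    refine congr_cone (add_cone e1 e3) fun e => ?_
    by_cases he : e ∈ O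
    · simp only [he, if_true]
      have := hab e he
      omega
    · simp only [he, if_false]
      rw [hoff e he]
      omega
  rcases O.eq_empty_or_nonempty with h | h
  · exact base 0 0 (by simp [h])
  · obtain ⟨e0, he0, hmin⟩ := exists_min_image O p h
    refine base (p e0) (p e0 - k) fun e he => ?_
    have h3 := hmin e he
    have h4 := h2 e he e0 he0
    have h5 := hpar e he e0 he0
    have h6 := h1 e0 he0
    rw [min_eq_right (by omega)]
    omega

end Pool.Agent.Q108.EW
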